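import Pool.Agent.PebBd.Final
import Pool.Agent.Lib.PolyTime.FromTM2

/-!
# Approximation of the black pebbling number within an additive `N ^ (1 - ε)`, indegree two

For every `ε > 0` there is a polynomial-time function which maps the adjacency matrix of an acyclic
digraph `E` with one sink to the adjacency matrix of an acyclic digraph `E'` with one sink, all of
whose indegrees are at most `2`, such that `Peb E'` differs from `H + W (Peb E + 1)` by at most
`W / 4`, where `H` and `W` only depend on the number of vertices of `E` and are computable in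
polynomial time, and the number `N` of vertices of `E'` satisfies `4 N ^ (1 - ε) < W`.  Hence a
polynomial-time approximation of the black pebbling number within an additive `N ^ (1 - ε)` on
digraphs of indegree at most two yields a polynomial-time algorithm for the exact value on all
digraphs.
-/

set_option autoImplicit false

open Pool.Agent.PebAlg Pool.Agent.PebBd

namespace Pool.Agent.Results.MP_ecb870_lc.AdditiveIndegreeTwo

/-- the digraph `E` on `Fin n` is acyclic and `t` is its only sink -/
def IsDag {n : ℕ} (E : Fin n → Fin n → Bool) (t : Fin n) : Prop :=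
  (∀ v, ¬ Relation.TransGen (fun a b => E a b = true) v v) ∧
    (∀ v, E t v = false) ∧ ∀ s, (∀ v, E s v = false) → s = t

/-- all indegrees are at most two -/
def IndegLeTwo {n : ℕ} (E : Fin n → Fin n → Bool) : Prop :=
  ∀ v, (Finset.univ.filter (fun u => E u v = true)).card ≤ 2

/-- `f` is computed by a Turing machine in polynomial time -/
def PTime (f : List Bool → List Bool) : Prop :=
  Nonempty (Turing.TM2ComputableInPolyTime (fun w : List Bool => w) (fun w : List Bool => w) f)

theorem result (ε : ℝ) (hε : 0 < ε) :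
    (∃ (f : List Bool → List Bool) (H W : ℕ → ℕ), PTime f ∧
      PTime (fun w => List.replicate (H w.length) true) ∧
      PTime (fun w => List.replicate (W w.length) true) ∧
      ∀ (n : ℕ) (E : Fin n → Fin n → Bool) (t : Fin n), 2 ≤ n → IsDag E t →
        ∃ (N : ℕ) (E' : Fin N → Fin N → Bool) (t' : Fin N),
          f (code E) = code E' ∧ IsDag E' t' ∧ IndegLeTwo E' ∧
          4 * (N : ℝ) ^ (1 - ε) < W n ∧
          |(Peb (fun a b => E' a b = true) t' : ℝ) -
            (H n + W n * (Peb (fun a b => E a b = true) t + 1))| ≤ W n / 4) ∧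
    ∀ A : List Bool → ℕ, PTime (fun w => List.replicate (A w) true) →
      (∀ (N : ℕ) (E : Fin N → Fin N → Bool) (t : Fin N), IsDag E t → IndegLeTwo E →
        |(A (code E) : ℝ) - Peb (fun a b => E a b = true) t| ≤ (N : ℝ) ^ (1 - ε)) →
      ∃ B : List Bool → ℕ, PTime (fun w => List.replicate (B w) true) ∧
        ∀ (n : ℕ) (E : Fin n → Fin n → Bool) (t : Fin n), IsDag E t →
          B (code E) = Peb (fun a b => E a b = true) t := by
  set δ : ℝ := min ε (1 / 2) with hδ
  have hδ0 : 0 < δ := lt_min hε (by norm_num)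
  have hδ1 : δ < 1 := lt_of_le_of_lt (min_le_right _ _) (by norm_num)
  obtain ⟨γ, hγ4, hγ⟩ := num δ hδ0 hδ1
  have main : ∀ (n : ℕ) (E : Fin n → Fin n → Bool) (t : Fin n), 2 ≤ n → IsDag E t →
      ∃ (N : ℕ) (E' : Fin N → Fin N → Bool) (t' : Fin N),
        redA γ (code E) = code E' ∧ IsDag E' t' ∧ IndegLeTwo E' ∧
        4 * (N : ℝ) ^ (1 - ε) < Wf γ n ∧
        4 * Peb (fun a b => E' a b = true) t' ≤
          4 * (Hf γ n + Wf γ n * (Peb (fun a b => E a b = true) t + 1)) + Wf γ n ∧
        4 * (Hf γ n + Wf γ n * (Peb (fun a b => E a b = true) t + 1)) ≤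
          4 * Peb (fun a b => E' a b = true) t' + Wf γ n := by
    intro n E t hn hE
    obtain ⟨N, E', t', h1, h2, h3, h4, h5, h6⟩ := value_add hγ4 (t := t) hE hn
    refine ⟨N, E', t', h1, h2, h3, ?_, h5, h6⟩
    have hN : 1 ≤ N := Nat.one_le_of_lt t'.pos
    have h7 := hγ (kaf n) n N (lt_kaf n) hN h4
    have h8 : (N : ℝ) ^ (1 - ε) ≤ (N : ℝ) ^ (1 - δ) :=
      Real.rpow_le_rpow_of_exponent_le (by exact_mod_cast hN)
        (by have := min_le_left ε (1 / 2 : ℝ); linarith)
    have h9 : ((Wf γ n : ℕ) : ℝ) = 2 ^ (2 ^ γ * (kaf n + 1)) := by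
      unfold Wf omf
      push_cast
      ring
    rw [h9]
    linarith
  constructor
  · have hlen : Pool.Agent.Lib.PT.PolyTime (fun w : List Bool => w.length) :=
      Pool.Agent.Lib.PT.PolyTime.id.length
    refine ⟨redA γ, Hf γ, Wf γ, Pool.Agent.Lib.PT.ToTM2.polyTime_toTM2 _ (polyTime_redA γ),
      Pool.Agent.Lib.PT.ToTM2.polyTime_toTM2 _ ((polyTime_Hf γ hlen).replicate
        (Pool.Agent.Lib.PT.PolyTime.const true)),
      Pool.Agent.Lib.PT.ToTM2.polyTime_toTM2 _ ((polyTime_Wf γ hlen).replicate
        (Pool.Agent.Lib.PT.PolyTime.const true)), ?_⟩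
    intro n E t hn hE
    obtain ⟨N, E', t', h1, h2, h3, h4, h5, h6⟩ := main n E t hn hE
    refine ⟨N, E', t', h1, h2, h3, h4, ?_⟩
    have h7 : 4 * (Peb (fun a b => E' a b = true) t' : ℝ) ≤
        4 * (Hf γ n + Wf γ n * (Peb (fun a b => E a b = true) t + 1)) + Wf γ n := by
      exact_mod_cast h5
    have h8 : 4 * ((Hf γ n : ℝ) + Wf γ n * (Peb (fun a b => E a b = true) t + 1)) ≤
        4 * Peb (fun a b => E' a b = true) t' + Wf γ n := by
      exact_mod_cast h6
    rw [abs_le]
    constructor <;> linarith
  · intro A hA happ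
    refine ⟨decA γ A, ?_, ?_⟩
    · have hA' : Pool.Agent.Lib.PT.PolyTime (fun w : List Bool => A w) :=
        ((Pool.Agent.Lib.PT.polyTime_iff_TM2 _).2 hA).length.congr (fun w => by simp)
      exact (Pool.Agent.Lib.PT.polyTime_iff_TM2 _).1
        ((polyTime_decA γ hA').replicate (Pool.Agent.Lib.PT.PolyTime.const true))
    · intro n E t hE
      have hside : side (code E) = n := side_code E
      unfold decA
      rw [hside]
      by_cases hn : n ≤ 1
      · rw [if_pos hn]
        have hn1 : n = 1 := le_antisymm hn t.pos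
        subst hn1
        exact (peb_fin_one hE).symm
      · rw [if_neg hn]
        obtain ⟨N, E', t', h1, h2, h3, h4, h5, h6⟩ := main n E t (by omega) hE
        have h7 := happ N E' t' h2 h3
        rw [h1]
        obtain ⟨a, ha⟩ : ∃ a, a = A (code E') := ⟨_, rfl⟩
        obtain ⟨p, hp⟩ : ∃ p, p = Peb (fun a b => E a b = true) t := ⟨_, rfl⟩
        obtain ⟨x, hx⟩ : ∃ x, x = Peb (fun a b => E' a b = true) t' := ⟨_, rfl⟩
        rw [← ha, ← hx] at h7
        rw [← hp, ← hx] at h5 h6
        rw [← ha, ← hp]
        rw [abs_le] at h7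
        have hWe : 2 * (Wf γ n / 2) = Wf γ n := by
          apply Nat.mul_div_cancel'
          unfold Wf
          apply dvd_pow_self
          unfold omf
          positivity
        obtain ⟨W2, hW2⟩ : ∃ W2, W2 = Wf γ n / 2 := ⟨_, rfl⟩
        obtain ⟨W, hW⟩ : ∃ W, W = Wf γ n := ⟨_, rfl⟩
        obtain ⟨H, hH⟩ : ∃ H, H = Hf γ n := ⟨_, rfl⟩
        rw [← hW2, ← hW] at hWe
        rw [← hW, ← hH] at h5 h6
        rw [← hW] at h4
        rw [← hW2, ← hW, ← hH]
        -- integer inequalities
        have h8 : 4 * a < 4 * x + W := by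
          have : 4 * (a : ℝ) < 4 * x + W := by linarith [h7.2]
          exact_mod_cast this
        have h9 : 4 * x < 4 * a + W := by
          have : 4 * (x : ℝ) < 4 * a + W := by linarith [h7.1]
          exact_mod_cast this
        have hWpos : 0 < W := by rw [hW]; unfold Wf; positivity
        have h10 : (a + W2 - H) / W = p + 1 := by
          obtain ⟨Y, hY⟩ : ∃ Y, Y = W * (p + 1) := ⟨_, rfl⟩
          rw [← hY] at h5 h6
          have e1 : (p + 1) * W = Y := by rw [hY, mul_comm]
          have e2 : (p + 1 + 1) * W = Y + W := by rw [hY]; ring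
          apply Nat.div_eq_of_lt_le
          · rw [e1]; omega
          · rw [e2]; omega
        rw [h10]
        rfl

end Pool.Agent.Results.MP_ecb870_lc.AdditiveIndegreeTwo
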