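import Pool.Agent.PebBd.Cover
import Pool.Agent.Lib.PolyTime.FromTM2

/-!
# Constant factors: a gap-preserving reduction from vertex cover, indegree two

There is a polynomial-time function which maps (the adjacency matrix of) every simple graph `G` to
(the adjacency matrix of) an acyclic digraph with one sink, all of whose indegrees are at most `2`,
such that the black pebbling number of the digraph differs from `W (K + 8 n + 17 m + 5 + vc G)` by
at most `W / 4`, where `n`, `m`, `vc G` are the numbers of vertices and edges and the vertex cover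
number of `G`, and `W ≥ 1`, `K ≤ 18 n + 34 m + 12` are computable in polynomial time.  Hence a
polynomial-time approximation of the black pebbling number within the factor `1 + ε` on digraphs of
indegree at most two yields a polynomial-time approximation of the vertex cover number within the
factor `1 + 244 D ε` on graphs without isolated vertices and of maximal degree at most `D`; for cubic
graphs the latter is NP-hard for some `ε > 0` (a consequence of the PCP theorem).
-/

set_option autoImplicit false

open Pool.Agent.PebAlg Pool.Agent.PebBd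

namespace Pool.Agent.Results.MP_ecb870_lc.ConstantFactorIndegreeTwo

/-- the digraph `E` on `Fin n` is acyclic and `t` is its only sink -/
def IsDag {n : ℕ} (E : Fin n → Fin n → Bool) (t : Fin n) : Prop :=
  (∀ v, ¬ Relation.TransGen (fun a b => E a b = true) v v) ∧
    (∀ v, E t v = false) ∧ ∀ s, (∀ v, E s v = false) → s = t

/-- all indegrees are at most two -/
def IndegLeTwo {n : ℕ} (E : Fin n → Fin n → Bool) : Prop :=
  ∀ v, (Finset.univ.filter (fun u => E u v = true)).card ≤ 2

/-- `f` is computed by a Turing machine in polynomial time -/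
def PTime (f : List Bool → List Bool) : Prop :=
  Nonempty (Turing.TM2ComputableInPolyTime (fun w : List Bool => w) (fun w : List Bool => w) f)

/-- the adjacency matrix of a graph on `Fin n`, row by row, as a bit string -/
def graphCode {n : ℕ} (G : SimpleGraph (Fin n)) [DecidableRel G.Adj] : List Bool :=
  code (fun i j => decide (G.Adj i j))

theorem result :
    (∃ (f : List Bool → List Bool) (W K : List Bool → ℕ), PTime f ∧
      PTime (fun w => List.replicate (W w) true) ∧ PTime (fun w => List.replicate (K w) true) ∧
      ∀ (n : ℕ) (G : SimpleGraph (Fin n)) [DecidableRel G.Adj], 1 ≤ n →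
        1 ≤ W (graphCode G) ∧ K (graphCode G) ≤ 18 * n + 34 * G.edgeFinset.card + 12 ∧
        ∃ (M : ℕ) (E : Fin M → Fin M → Bool) (t : Fin M),
          f (graphCode G) = code E ∧ IsDag E t ∧ IndegLeTwo E ∧
            |(Peb (fun a b => E a b = true) t : ℝ) - W (graphCode G) *
              (K (graphCode G) + 8 * n + 17 * G.edgeFinset.card + 5 + G.vertexCoverNum.toNat)| ≤
              W (graphCode G) / 4) ∧
    ∀ ε : ℝ, 0 ≤ ε → ∀ A : List Bool → ℕ, PTime (fun w => List.replicate (A w) true) →
      (∀ (M : ℕ) (E : Fin M → Fin M → Bool) (t : Fin M), IsDag E t → IndegLeTwo E →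
        Peb (fun a b => E a b = true) t ≤ A (code E) ∧
          (A (code E) : ℝ) ≤ (1 + ε) * Peb (fun a b => E a b = true) t) →
      ∃ B : List Bool → ℕ, PTime (fun w => List.replicate (B w) true) ∧
        ∀ (n D : ℕ) (G : SimpleGraph (Fin n)) [DecidableRel G.Adj], 1 ≤ n →
          (∀ v, 1 ≤ G.degree v ∧ G.degree v ≤ D) →
            G.vertexCoverNum ≤ (B (graphCode G) : ℕ∞) ∧
            (B (graphCode G) : ℝ) ≤ (1 + 244 * D * ε) * (G.vertexCoverNum.toNat : ℝ) := by
  constructor
  · refine ⟨redC, WC, KC, Pool.Agent.Lib.PT.ToTM2.polyTime_toTM2 _ polyTime_redC,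
      Pool.Agent.Lib.PT.ToTM2.polyTime_toTM2 _ (polyTime_WC.replicate
        (Pool.Agent.Lib.PT.PolyTime.const true)),
      Pool.Agent.Lib.PT.ToTM2.polyTime_toTM2 _ (polyTime_KC.replicate
        (Pool.Agent.Lib.PT.PolyTime.const true)), ?_⟩
    intro n G _ hn
    have hside : side (graphCode G) = n := Pool.Agent.PebHard.side_gcode G
    have hlen : (Pool.Agent.PebHard.edges (graphCode G)).length = G.edgeFinset.card :=
      Pool.Agent.PebHard.length_edges G
    refine ⟨Nat.one_le_two_pow, ?_, ?_⟩
    · have h := KC_le (graphCode G)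
      rw [hside, hlen] at h
      exact h
    · obtain ⟨k, hk⟩ : ∃ k : ℕ, G.vertexCoverNum = (k : ℕ∞) := by
        obtain ⟨S, _, _, hS⟩ := Pool.Agent.PebHard.exists_vertexCover G
        exact ⟨_, hS⟩
      obtain ⟨M, E, t, h1, h2, h3, h4, h5⟩ := value_cover hn G k hk
      refine ⟨M, E, t, h1, h2, h3, ?_⟩
      have h1' : redC (graphCode G) = code E := h1
      have e1 : Pool.Agent.PebHard.gcode G = graphCode G := rfl
      rw [e1] at h4 h5
      rw [hk, ENat.toNat_natCast, abs_le]
      have h6 : 4 * (Peb (fun a b => E a b = true) t : ℝ) ≤ WC (graphCode G) *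
          (4 * (KC (graphCode G) + (8 * n + 17 * G.edgeFinset.card + 5 + k)) + 1) := by
        exact_mod_cast h4
      have h7 : (WC (graphCode G) : ℝ) *
          (4 * (KC (graphCode G) + (8 * n + 17 * G.edgeFinset.card + 5 + k))) ≤
          4 * Peb (fun a b => E a b = true) t + WC (graphCode G) := by
        exact_mod_cast h5
      constructor <;> linarith
  · intro ε hε A hA happ
    have hA' : Pool.Agent.Lib.PT.PolyTime (fun w : List Bool => A w) :=
      ((Pool.Agent.Lib.PT.polyTime_iff_TM2 _).2 hA).length.congr (fun w => by simp)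
    refine ⟨decC A, ?_, ?_⟩
    · exact (Pool.Agent.Lib.PT.polyTime_iff_TM2 _).1
        ((polyTime_decC hA').replicate (Pool.Agent.Lib.PT.PolyTime.const true))
    · intro n D G _ hn hD
      have hside : side (graphCode G) = n := Pool.Agent.PebHard.side_gcode G
      have hlen : (Pool.Agent.PebHard.edges (graphCode G)).length = G.edgeFinset.card :=
        Pool.Agent.PebHard.length_edges G
      obtain ⟨k, hk⟩ : ∃ k : ℕ, G.vertexCoverNum = (k : ℕ∞) := by
        obtain ⟨S, _, _, hS⟩ := Pool.Agent.PebHard.exists_vertexCover G
        exact ⟨_, hS⟩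
      obtain ⟨b1, b2, b3, b4⟩ := Pool.Agent.PebHard.bounded_degree G D hD hn k hk
      obtain ⟨M, E, t, h1, h2, h3, h4, h5⟩ := value_cover hn G k hk
      have h1' : redC (graphCode G) = code E := h1
      have e1 : Pool.Agent.PebHard.gcode G = graphCode G := rfl
      rw [e1] at h4 h5
      obtain ⟨a1, a2⟩ := happ M E t h2 h3
      have hK := KC_le (graphCode G)
      rw [hside, hlen] at hK
      have hb := dec_bound (WC (graphCode G)) (KC (graphCode G))
        (Peb (fun a b => E a b = true) t) (A (code E)) (8 * n + 17 * G.edgeFinset.card + 5) k D n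
        G.edgeFinset.card ε hε (Nat.one_le_two_pow) hK rfl h4 h5 a1 a2 b1 b2 b3 b4
      unfold decC
      rw [hside, hlen, h1', hk, ENat.toNat_natCast]
      exact ⟨by exact_mod_cast hb.1, hb.2⟩

end Pool.Agent.Results.MP_ecb870_lc.ConstantFactorIndegreeTwo
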