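import Pool.Agent.PebAlg.Final2
import Pool.Agent.PebAlg.N04
import Pool.Agent.PebAlg.N05
import Pool.Agent.PebAlg.N06
import Pool.Agent.Lib.PolyTime.ToTM2

/-!
# Polynomial-time approximation of the black pebbling number within a factor `o(n / log n)`

For every `δ > 0` there is a polynomial-time algorithm `A` (input: the adjacency matrix, output: a
number in unary) with `Peb G ≤ A G` for every acyclic digraph with one sink and, for all large `n`:

* `A G ≤ δ (n / log n) Peb G` for every such `G` with `n` vertices (no bound on the indegrees);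
* `A G ≤ δ D n log (2 + log n / D) / (log n)^2 * Peb G` if all indegrees are at most `D`, `D ≥ 1`.

So for digraphs of bounded indegree the factor is `O (n log log n / (log n)^2) = o(n / log n)`.
Moreover (for all `n`) `A G ≤ (n / d) Peb G` if `d ≥ 1` is the indegree of some vertex.
The game, the numbers `Peb`, the encoding `code` and the algorithm are defined in
`Pool/Agent/PebAlg/Defs.lean` and `Defs2.lean`.
-/

set_option autoImplicit false

open Pool.Agent.PebAlg

namespace Pool.Agent.Results.MP_ecb870_lc.PolyTimeApprox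

/-- the digraph `E` on `Fin n` is acyclic and `t` is its only sink -/
def IsDag {n : ℕ} (E : Fin n → Fin n → Bool) (t : Fin n) : Prop :=
  (∀ v, ¬ Relation.TransGen (fun a b => E a b = true) v v) ∧
    (∀ v, E t v = false) ∧ ∀ s, (∀ v, E s v = false) → s = t

/-- the indegree of the vertex `v` -/
def indeg {n : ℕ} (E : Fin n → Fin n → Bool) (v : Fin n) : ℕ :=
  (Finset.univ.filter (fun u => E u v = true)).card

theorem result (δ : ℝ) (hδ : 0 < δ) :
    ∃ A : List Bool → ℕ,
      Nonempty (Turing.TM2ComputableInPolyTime (fun w : List Bool => w) (fun w : List Bool => w)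
        (fun w : List Bool => List.replicate (A w) true)) ∧
      (∀ (n : ℕ) (E : Fin n → Fin n → Bool) (t : Fin n), IsDag E t →
        Peb (fun a b => E a b = true) t ≤ A (code E) ∧
        ∀ v, indeg E v * A (code E) ≤ n * Peb (fun a b => E a b = true) t) ∧
      ∃ n₀ : ℕ, ∀ n ≥ n₀, ∀ (E : Fin n → Fin n → Bool) (t : Fin n), IsDag E t →
        (A (code E) : ℝ) ≤ δ * (n / Real.log n) * Peb (fun a b => E a b = true) t ∧
        ∀ D : ℕ, 1 ≤ D → (∀ v, indeg E v ≤ D) →
          (A (code E) : ℝ) ≤ δ * D * (n * Real.log (2 + Real.log n / D) / (Real.log n) ^ 2) *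
            Peb (fun a b => E a b = true) t := by
  obtain ⟨C₁, h₁⟩ := numericA δ hδ
  obtain ⟨C₂, h₂⟩ := numericB δ hδ
  obtain ⟨n₁, hn₁⟩ := h₁ (max C₁ C₂) (le_max_left _ _)
  obtain ⟨n₂, hn₂⟩ := h₂ (max C₁ C₂) (le_max_right _ _)
  have hsink : ∀ {n : ℕ} (E : Fin n → Fin n → Bool) (t : Fin n), IsDag E t →
      ∀ s, (∀ v, ¬ E s v = true) → s = t := by
    intro n E t h s hs
    exact h.2.2 s (fun v => by simpa using hs v)
  refine ⟨fun w => algU (max C₁ C₂) w, Pool.Agent.Lib.PT.ToTM2.polyTime_toTM2 _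
    (polyTime_outU _), ?_, max n₁ n₂, ?_⟩
  · intro n E t h
    refine ⟨peb_le_algU E h.1 _ t, fun v => ?_⟩
    have h1 : indeg E v ≤ Peb (fun a b => E a b = true) t :=
      indeg_le_peb h.1 (hsink E t h) v _ (fun u hu => by simpa using hu)
    calc indeg E v * algU (max C₁ C₂) (code E)
        ≤ Peb (fun a b => E a b = true) t * n := Nat.mul_le_mul h1 (algU_le_card E _)
      _ = n * Peb (fun a b => E a b = true) t := Nat.mul_comm _ _
  · intro n hn E t h
    obtain ⟨a1, a2, a3, a4⟩ := hn₁ n (le_trans (le_max_left _ _) hn)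
    refine ⟨ratioA E h.1 (hsink E t h) _ a4 _ a3 a1 a2, ?_⟩
    intro D hD1 hD
    obtain ⟨b1, b2, b3⟩ := hn₂ n (le_trans (le_max_right _ _) hn) D hD1
    exact ratioB E h.1 (hsink E t h) _ a4 _ b3 hD b1 b2

end Pool.Agent.Results.MP_ecb870_lc.PolyTimeApprox
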